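import Mathlib
import Pool.Agent.Work.MP_4cd38d_lc.DefsSkolem

set_option autoImplicit false

/-!
Definitions for the theorem on coincidences of primitive HD0L systems.
`HSystem` and `term` are those of `Pool.Agent.Work.MP_4cd38d_lc.DefsSkolem`: `term S n` is the word
`g₂(g₁ⁿ(u))` of the system `S = (u, table of g₁, table of g₂)`.
-/

namespace Pool.Agent.Work.MP_4cd38d_pr

open Pool.Agent.Work.MP_4cd38d_lc

/-- The number of letters of the system `S`: its letters are `0, …, sz S - 1`. -/
def sz (S : HSystem) : ℕ := S.2.1.length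

/-- The first morphism `g₁` of the system, applied to a word. -/
def hstep (S : HSystem) (w : List ℕ) : List ℕ := w.flatMap (fun a => S.2.1.getD a [])

/-- The word `g₂(g₁ⁿ(a))` of the letter `a`. -/
def blk (S : HSystem) (n a : ℕ) : List ℕ := term ([a], S.2) n

/-- Only letters `< sz S` occur in the start word and in the table of `g₁`. -/
def Proper (S : HSystem) : Prop :=
  (∀ a ∈ S.1, a < sz S) ∧ ∀ w ∈ S.2.1, ∀ a ∈ w, a < sz S

/-- The system is primitive: it is proper, its start word is not empty, for some `m > 0` every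
letter occurs in `g₁ᵐ(a)` for every letter `a`, and `g₂` does not erase all letters. -/
def Primitive (S : HSystem) : Prop :=
  Proper S ∧ S.1 ≠ [] ∧
    (∃ m, 0 < m ∧ ∀ a < sz S, ∀ b < sz S, b ∈ (hstep S)^[m] [a]) ∧
    ∃ a < sz S, S.2.2.getD a [] ≠ []

/-- The word `w` has period `q`: letters at distance `q` agree. -/
def HasPeriod (q : ℕ) (w : List ℕ) : Prop := ∀ i, i + q < w.length → w[i]? = w[i + q]?

/-- The system is periodic: there is one `q > 0` which is a period of all words `g₂(g₁ⁿ(a))`. -/
def Periodic (S : HSystem) : Prop :=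
  ∃ q, 0 < q ∧ ∀ n, ∀ a < sz S, HasPeriod q (blk S n a)

/-- The word `w` has no factor `yᴷ` with `y` nonempty. -/
def PowerFree (K : ℕ) (w : List ℕ) : Prop :=
  ∀ y : List ℕ, y ≠ [] → ¬ ((List.replicate K y).flatten <:+: w)

/-- For some `K` none of the words `g₂(g₁ⁿ(a))` contains a `K`-th power of a nonempty word. -/
def PowerBounded (S : HSystem) : Prop := ∃ K, ∀ n, ∀ a < sz S, PowerFree K (blk S n a)

/-- The words `g₂(g₁ᵏ(a))` and `h₂(h₁ᵏ(b))` of all letters of the two systems are, for large `k`,
nonempty and of the same length up to a constant factor. -/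
def Balanced (S S' : HSystem) : Prop :=
  ∃ C k₀, ∀ k ≥ k₀, ∀ a < sz S, ∀ b < sz S',
    0 < (blk S k a).length ∧ 0 < (blk S' k b).length ∧
      (blk S k a).length ≤ C * (blk S' k b).length ∧
      (blk S' k b).length ≤ C * (blk S k a).length

/-- The pairs of systems of the theorem: both are primitive and at most one is periodic, or they
have at least one letter, are balanced and one of them has bounded powers. -/
def Covered (S S' : HSystem) : Prop :=
  (Primitive S ∧ Primitive S' ∧ (¬ Periodic S ∨ ¬ Periodic S')) ∨
    (Proper S ∧ Proper S' ∧ 0 < sz S ∧ 0 < sz S' ∧ Balanced S S' ∧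
      (PowerBounded S ∨ PowerBounded S'))

end Pool.Agent.Work.MP_4cd38d_pr
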