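import Mathlib
import Pool.Agent.Work.MP_4cd38d_pr.Defs

set_option autoImplicit false

/-!
# MP_4cd38d_lc, primitive systems: interface of the blocks

Main idea.  `G k a = g₂(g₁ᵏ(a))`, `G' k b = h₂(h₁ᵏ(b))`.  For words `x`, `y` put
`Eq_k = {(x, y) | G k (x) = G' k (y)}`.  Then `n + k ∈ E` iff `(g₁ⁿ(u), h₁ⁿ(v)) ∈ Eq_k`.  So
`Eq_i = Eq_j` makes `E` periodic from `i` on with period `j - i`.  If all blocks have comparable
lengths and one side has bounded powers, then only finitely many relations `Eq_k` exist: a pair of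
`Eq_k` is read letter by letter, always on the side which is behind (`Canon`), and the overhangs
which can occur are bounded in number (`WW` has a bounded number of residuals: `Nerode`).
-/

namespace Pool.Agent.Work.MP_4cd38d_pr

open Pool.Agent.Work.MP_4cd38d_lc

/-- `g₁ᵏ(a)`. -/
abbrev hp (S : HSystem) (k a : ℕ) : List ℕ := (hstep S)^[k] [a]

/-- The left and the right letters of a word over the sum alphabet. -/
def pl (ω : List (ℕ ⊕ ℕ)) : List ℕ := ω.filterMap Sum.getLeft?
def pr (ω : List (ℕ ⊕ ℕ)) : List ℕ := ω.filterMap Sum.getRight?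

/-- The outputs of the two sides. -/
def o1 (G : ℕ → List ℕ) (ω : List (ℕ ⊕ ℕ)) : List ℕ := (pl ω).flatMap G
def o2 (G' : ℕ → List ℕ) (ω : List (ℕ ⊕ ℕ)) : List ℕ := (pr ω).flatMap G'

/-- Canonical interleaving: a left letter is read iff the left output is not longer than the right
one. -/
def Canon (G G' : ℕ → List ℕ) (ω : List (ℕ ⊕ ℕ)) : Prop :=
  ∀ (ω' : List (ℕ ⊕ ℕ)) (c : ℕ ⊕ ℕ), (ω' ++ [c]) <+: ω →
    (c.isLeft = true ↔ (o1 G ω').length ≤ (o2 G' ω').length)

/-- The canonical interleavings of the pairs with equal outputs. -/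
def WW (s s' : ℕ) (G G' : ℕ → List ℕ) : Set (List (ℕ ⊕ ℕ)) :=
  {ω | (∀ a ∈ pl ω, a < s) ∧ (∀ b ∈ pr ω, b < s') ∧ Canon G G' ω ∧ o1 G ω = o2 G' ω}

/-- The language `L` has at most `N` residuals. -/
def Nerode (L : Set (List (ℕ ⊕ ℕ))) (N : ℕ) : Prop :=
  ∃ c : List (ℕ ⊕ ℕ) → Fin N, ∀ ω ω', c ω = c ω' → ∀ ρ, (ω ++ ρ ∈ L ↔ ω' ++ ρ ∈ L)

/-- The blocks of both sides are nonempty. -/
def NE (s s' : ℕ) (G G' : ℕ → List ℕ) : Prop := (∀ a < s, G a ≠ []) ∧ ∀ b < s', G' b ≠ []

/-- **NER.** Two languages with at most `N`, `N'` residuals which agree on the words of length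
`< N * N'` are equal.  Proof: take a shortest word in the difference; among its prefixes of length
`0, …, N N'` two have the same pair of codes; cut out the piece between them. -/
def Stmt_NER : Prop := ∀ (L L' : Set (List (ℕ ⊕ ℕ))) (N N' : ℕ), Nerode L N → Nerode L' N' →
  (∀ ω, ω.length < N * N' → (ω ∈ L ↔ ω ∈ L')) → L = L'

/-- **FAM.** A sequence of languages over one finite alphabet with a bounded number of residuals
takes a value twice.  Proof from NER: `W k` restricted to the finitely many words of length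
`< N * N` over the alphabet takes a value twice. -/
def Stmt_FAM : Prop := ∀ (s s' N k₀ : ℕ) (W : ℕ → Set (List (ℕ ⊕ ℕ))),
  (∀ k ≥ k₀, ∀ ω ∈ W k, (∀ a ∈ pl ω, a < s) ∧ (∀ b ∈ pr ω, b < s')) →
  (∀ k ≥ k₀, Nerode (W k) N) → ∃ i j, k₀ ≤ i ∧ i < j ∧ W i = W j

/-- **INT.** Every pair with equal outputs has a canonical interleaving.  Proof: extend a canonical
`ω'` with `pl ω' ++ x'' = x`, `pr ω' ++ y'' = y` letter by letter; if the left output is not longer
then `x'' ≠ []` (otherwise all of `y''` would be empty words, as the total outputs agree), and if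
it is longer then `y'' ≠ []`. -/
def Stmt_INT : Prop := ∀ (s s' : ℕ) (G G' : ℕ → List ℕ), NE s s' G G' →
  ∀ x y : List ℕ, (∀ a ∈ x, a < s) → (∀ b ∈ y, b < s') → x.flatMap G = y.flatMap G' →
    ∃ ω ∈ WW s s' G G', pl ω = x ∧ pr ω = y

/-- **SPR.** Two occurrences of a word without `K`-th powers in one word are far apart.  Proof: with
`δ = o' - o` the word `p` has period `δ`; if `K δ ≤ |p|` then `p` begins with the `K`-th power of its
first `δ` letters. -/
def Stmt_SPR : Prop := ∀ (K : ℕ) (p z : List ℕ) (o o' : ℕ), PowerFree K p → p ≠ [] → o < o' →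
  p <+: z.drop o → p <+: z.drop o' → p.length < K * (o' - o)

/-- **SPC.** Hence the number of occurrences in a window of length `A ≤ C |p|` is at most
`K * C + 1`. Proof: `o ↦ K * o / |p|` is injective on `O` with values `≤ K * C`. -/
def Stmt_SPC : Prop := ∀ (K C A : ℕ) (p z : List ℕ) (O : Finset ℕ), PowerFree K p → p ≠ [] →
  A ≤ C * p.length → (∀ o ∈ O, o < A ∧ p <+: z.drop o) → O.card ≤ K * C + 1

/-- **OV1.** Overhang when the right side is ahead.  `ω` is the read part of an accepted word.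
Proof: if the outputs of `ω` have different length, let `b` be the last right letter of `ω`,
`ω = ω₀ ++ [inr b] ++ (left letters)`; then the left output of `ω₀` was longer than its right output
(canonical), so the left output of `ω` ends inside the block of `b`, at offset `o`.  The rest `ρ` has
a left letter, its first left letter `a` has its block at this place (all of the common output
`o1 (ω ++ ρ) = o2 (ω ++ ρ)`), `y''` are the right letters of `ρ`. -/
def Stmt_OV1 : Prop := ∀ (s s' : ℕ) (G G' : ℕ → List ℕ), NE s s' G G' →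
  ∀ ω ρ, ω ++ ρ ∈ WW s s' G G' → (o1 G ω).length ≤ (o2 G' ω).length →
    o1 G ω = o2 G' ω ∨
    ∃ a b y'' o, a < s ∧ b < s' ∧ (∀ c ∈ y'', c < s') ∧ o < (G' b).length ∧
      o2 G' ω = o1 G ω ++ (G' b).drop o ∧ G a <+: ((b :: y'').flatMap G').drop o

/-- **OV2.** Overhang when the left side is ahead.  Proof: let `a` be the last left letter of `ω`,
then only right letters follow. -/
def Stmt_OV2 : Prop := ∀ (s s' : ℕ) (G G' : ℕ → List ℕ), NE s s' G G' →
  ∀ ω ρ, ω ++ ρ ∈ WW s s' G G' → (o2 G' ω).length < (o1 G ω).length →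
    ∃ (ω₀ : List (ℕ ⊕ ℕ)) (a : ℕ) (ξ β α : List ℕ), ω = ω₀ ++ Sum.inl a :: ξ.map Sum.inr ∧
      a < s ∧ (∀ b ∈ ξ, b < s') ∧ (o1 G ω₀).length ≤ (o2 G' ω₀).length ∧
      o2 G' ω₀ = o1 G ω₀ ++ β ∧ o1 G ω = o2 G' ω ++ α ∧ α ≠ [] ∧
      G a = β ++ ξ.flatMap G' ++ α

/-- **RES.** The residual of a readable word depends only on the overhang. -/
def Stmt_RES : Prop := ∀ (s s' : ℕ) (G G' : ℕ → List ℕ) (ω ω' : List (ℕ ⊕ ℕ)),
  (∃ ρ, ω ++ ρ ∈ WW s s' G G') → (∃ ρ, ω' ++ ρ ∈ WW s s' G G') →
  ((∃ β, o2 G' ω = o1 G ω ++ β ∧ o2 G' ω' = o1 G ω' ++ β) ∨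
   (∃ α, α ≠ [] ∧ o1 G ω = o2 G' ω ++ α ∧ o1 G ω' = o2 G' ω' ++ α)) →
  ∀ ρ, (ω ++ ρ ∈ WW s s' G G' ↔ ω' ++ ρ ∈ WW s s' G G')

/-- **CNT.** The number of residuals is bounded in terms of `s, s', C, K` only.  Proof from OV1, OV2,
RES, SPC.  Right side ahead: the overhang is `[]` or `(G' b).drop o` where `o` is in the set of
occurrences of `G a` in `(b :: η).flatMap G'` at a place `< |G' b|`, `η = y''.take C` (as
`|G' c| ≥ |G a| / C`, the first `C` letters of `y''` suffice to see `G a`, or `y''` is shorter); by SPC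
at most `K * C + 1` values for each `(a, b, η)`.  Left side ahead: the overhang is
`(G a).drop (|β| + |ξ.flatMap G'|)` with `β` one of the previous overhangs and `|ξ| ≤ C`. -/
def Stmt_CNT : Prop := ∀ s s' C K : ℕ, 0 < s → 0 < s' → ∃ N, ∀ G G' : ℕ → List ℕ,
  (∀ a < s, ∀ b < s', 0 < (G a).length ∧ 0 < (G' b).length ∧
    (G a).length ≤ C * (G' b).length ∧ (G' b).length ≤ C * (G a).length) →
  (∀ a < s, PowerFree K (G a)) → Nerode (WW s s' G G') N

/-- An explicit number. -/
def lam (s s' : ℕ) (G G' : ℕ → List ℕ) : ℕ :=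
  2 + ((List.range s).map fun a => (G a).length + 1).sum +
    ((List.range s').map fun b => (G' b).length + 1).sum

/-- **LAM.** An explicit bound for the number of residuals, without assumptions on powers: the
overhang is `[]`, a suffix of some `G' b` or a suffix of some `G a`.  From OV1, OV2, RES. -/
def Stmt_LAM : Prop := ∀ (s s' : ℕ) (G G' : ℕ → List ℕ), NE s s' G G' →
  Nerode (WW s s' G G') (lam s s' G G')

/-- The language of level `k` of two systems. -/
abbrev WS (S S' : HSystem) (k : ℕ) : Set (List (ℕ ⊕ ℕ)) :=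
  WW (sz S) (sz S') (fun a => blk S k a) (fun b => blk S' k b)

/-- The blocks of level `k` are nonempty. -/
abbrev NES (S S' : HSystem) (k : ℕ) : Prop :=
  NE (sz S) (sz S') (fun a => blk S k a) (fun b => blk S' k b)

/-- **PER.** Equal languages at levels `i`, `j` give periodicity of the coincidences.  From INT:
`term S (n + i) = ((hstep S)^[n] S.1).flatMap (blk S i)`. -/
def Stmt_PER : Prop := ∀ (S S' : HSystem) (i j : ℕ), Proper S → Proper S' → NES S S' i →
  NES S S' j → WS S S' i = WS S S' j →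
  ∀ n, (term S (n + i) = term S' (n + i) ↔ term S (n + j) = term S' (n + j))

/-- **GRO.** Growth of a primitive system. Proof: for `k ≥ m`, `g₁ᵏ(b)` contains `g₁^{k-m}(c)` for all
letters `c`, so `|g₁ᵏ(a)| = ∑_{c ∈ g₁ᵐ(a)} |g₁^{k-m}(c)| ≤ |g₁ᵐ(a)| |g₁ᵏ(b)|`; for `k < m` finitely many
numbers, all `≥ 1`.  For `blk`: `k₀ = m`, `blk S m c ≠ []` for all letters `c`, hence
`|g₁^{k-m}(a)| ≤ |blk S k a|`. -/
def Stmt_GRO : Prop := ∀ S : HSystem, Primitive S → ∃ D k₀ : ℕ, 0 < D ∧
  (∀ k, ∀ a < sz S, ∀ b < sz S, 0 < (hp S k a).length ∧ (hp S k a).length ≤ D * (hp S k b).length) ∧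
  (∀ k ≥ k₀, ∀ a < sz S, ∀ b < sz S, 0 < (blk S k a).length ∧
    (blk S k a).length ≤ D * (hp S k b).length ∧ (hp S k b).length ≤ D * (blk S k a).length)

/-- **DIC.** Two primitive systems are balanced or one of them grows faster.  From GRO: if for no
`k > 0` all `|g₁ᵏ(a)|` are smaller than all `|h₁ᵏ(b)|`, then `|h₁ᵏ(b)| ≤ C |g₁ᵏ(a)|` for all `k > 0`. -/
def Stmt_DIC : Prop := ∀ S S' : HSystem, Primitive S → Primitive S' → Balanced S S' ∨
  (∃ k > 0, ∀ a < sz S, ∀ b < sz S', (hp S k a).length < (hp S' k b).length) ∨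
  (∃ k > 0, ∀ a < sz S, ∀ b < sz S', (hp S' k b).length < (hp S k a).length)

/-- The certificate which shows that from `N` on the second system has longer words. -/
def lenCert (S S' : HSystem) (k N : ℕ) : Prop :=
  (∀ a < sz S, ∀ b < sz S', (hp S k a).length ≤ (hp S' k b).length ∧ 0 < (hp S' k b).length) ∧
  ∀ r < k, ∀ a < sz S, ∀ b < sz S',
    S.1.length * (blk S (N + r) a).length < (blk S' (N + r) b).length

/-- **LEN.** The certificate exists when the second system grows faster.  Proof: with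
`L = max |g₁ᵏ(a)| < l = min |h₁ᵏ(b)|`, `|blk S (N₀ + r + k t) a| ≤ L^t B` and
`l^t ≤ |blk S' (N₀ + r + k t) b|` for `r < k`; take `t` large, `N = N₀ + k t`. -/
def Stmt_LEN : Prop := ∀ S S' : HSystem, Primitive S → Primitive S' →
  (∃ k > 0, ∀ a < sz S, ∀ b < sz S', (hp S k a).length < (hp S' k b).length) →
  ∃ k N, 0 < k ∧ lenCert S S' k N

/-- **LSO.** Soundness of the certificate. Proof: by induction `|u| |blk S n a| < |blk S' n b|` for all
`n ≥ N`: for `n = n' + k` let `P` be the minimum of `|blk S' n' b|`; then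
`|u| |blk S n a| ≤ |g₁ᵏ(a)| (P - 1) < |h₁ᵏ(b)| P ≤ |blk S' n b|`. -/
def Stmt_LSO : Prop := ∀ (S S' : HSystem) (k N : ℕ), Proper S → Proper S' → 0 < sz S → 0 < sz S' →
  S'.1 ≠ [] → 0 < k → lenCert S S' k N → ∀ n ≥ N, (term S n).length < (term S' n).length

/-- **GLU.** Words all of whose adjacent block pairs have period `q` have period `q`.  From: if
`u ++ v` and `v ++ w` have period `q` and `q ≤ |v|` then `u ++ v ++ w` has period `q`. -/
def Stmt_GLU : Prop := ∀ (q : ℕ) (G : ℕ → List ℕ) (w : List ℕ),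
  (∀ c ∈ w, q ≤ (G c).length ∧ HasPeriod q (G c)) →
  (∀ c c', [c, c'] <:+: w → HasPeriod q (G c ++ G c')) → HasPeriod q (w.flatMap G)

/-- **INB.** A long factor of a product of short blocks contains a full block. -/
def Stmt_INB : Prop := ∀ (B : ℕ) (G : ℕ → List ℕ) (w z : List ℕ), 0 < B →
  (∀ c ∈ w, (G c).length ≤ B) → 2 * B ≤ z.length → z <:+: w.flatMap G → ∃ c ∈ w, G c <:+: z

/-- **TWO.** In a primitive system there is a level `M` such that `g₁ᴹ(c)` contains, for every letter
`c`, all letters and all two letter words `[a, b]` which are factors of words `g₁ʲ(d)`, `j ≥ 0`.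
Proof: for each of the finitely many such `[a, b]` choose `j`, `d`; it is a factor of `g₁ᴶ(c)` for all
`J ≥ j + m` and all letters `c`, since `d` occurs in `g₁^{J-j}(c)`. -/
def Stmt_TWO : Prop := ∀ S : HSystem, Primitive S → ∃ M, ∀ c < sz S, (∀ a < sz S, a ∈ hp S M c) ∧
  ∀ a b d j, d < sz S → [a, b] <:+: hp S j d → [a, b] <:+: hp S M c

/-- **SCL.** Levels at the scale `q`: there are constants `D`, `K` such that for every `q > 0` there is
a level `k` at which all blocks are longer than `q` and all blocks of the levels `≤ k + M` are at most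
`D q` long.  Proof (GRO gives `D₁`, `k₀`; for `k ≥ k₀` all blocks of level `k` are `≤ D₁²` times each
other): `Periodic` fails, so blocks of arbitrarily large length exist (a word of length `≤ Q` has
period `Q`), and `k := ` the least `k ≥ k₀` with all blocks of level `k` longer than `q` exists.  For
`k₀ ≤ n < k` some block of level `n` is `≤ q`, so all are `≤ D₁² q`; the blocks of level `k` are
products of at most `max |g₁(c)|` blocks of level `k - 1` (or `k = k₀`: a constant), those of level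
`k + i`, `i ≤ M`, products of at most `max |g₁ⁱ(c)|` blocks of level `k`. -/
def Stmt_SCL : Prop := ∀ S : HSystem, Primitive S → ¬ Periodic S → ∀ M, ∃ D, ∀ q > 0, ∃ k,
  (∀ c < sz S, q < (blk S k c).length) ∧
  ∀ n ≤ k + M, ∀ c < sz S, (blk S n c).length ≤ D * q

/-- **APB.** A primitive system which is not periodic has bounded powers.  Proof from GLU, INB, TWO,
SCL (with `M` of TWO): take `K = 2 D + 1`.  Let `yᴷ` be a factor of `blk S n a`, `q = |y| ≥ 1`, `k` the
level of SCL, `k' = k + M`.  As `|yᴷ| > D q`, `n > k'`, so `blk S n a` is a product of blocks of level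
`k'`, all of length `≤ D q`, and (INB with `B = D q`) `yᴷ` contains a full block `blk S k' c`, which
contains all blocks of level `k` and all `blk S k a ++ blk S k b` with `[a, b]` a factor of some
`g₁ʲ(d)`.  So these have period `q`, by GLU all `blk S (k + j) d` have period `q`, and so have the
blocks of levels `< k`, as they are factors of blocks of levels `≥ k`.  Hence `S` is periodic. -/
def Stmt_APB : Prop := ∀ S : HSystem, Primitive S → ¬ Periodic S → PowerBounded S

/-- All words of length `n` over the alphabet `l`. -/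
def wordsOf (l : List (ℕ ⊕ ℕ)) : ℕ → List (List (ℕ ⊕ ℕ))
  | 0 => [[]]
  | n + 1 => (wordsOf l n).flatMap fun w => l.map fun c => c :: w

/-- The alphabet. -/
def alph (s s' : ℕ) : List (ℕ ⊕ ℕ) := (List.range s).map Sum.inl ++ (List.range s').map Sum.inr

/-- The first certificate: the levels `i < j` have equal languages, there is no coincidence
before `j`. -/
def cert1 (S S' : HSystem) (i j : ℕ) : Prop :=
  i < j ∧ NES S S' i ∧ NES S S' j ∧
  (∀ n < lam (sz S) (sz S') (fun a => blk S i a) (fun b => blk S' i b) *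
      lam (sz S) (sz S') (fun a => blk S j a) (fun b => blk S' j b),
    ∀ ω ∈ wordsOf (alph (sz S) (sz S')) n, (ω ∈ WS S S' i ↔ ω ∈ WS S S' j)) ∧
  ∀ n < j, term S n ≠ term S' n

/-- The second certificate. -/
def cert2 (S S' : HSystem) (k N : ℕ) : Prop :=
  0 < k ∧ S'.1 ≠ [] ∧ lenCert S S' k N ∧ ∀ n < N, term S n ≠ term S' n

/-- **CMW.** (`Work/MP_4cd38d_lc/Comp.lean` has `primrec_term` and more.)  `Canon` and the equality
of outputs can be computed by one `foldl` over the word with state (left output, right output, ok). -/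
def Stmt_CMW : Prop :=
  PrimrecPred fun q : ((HSystem × HSystem) × ℕ) × List (ℕ ⊕ ℕ) => q.2 ∈ WS q.1.1.1 q.1.1.2 q.1.2

/-- **CM1.** From CMW. -/
def Stmt_CM1 : Prop :=
  PrimrecPred fun q : (HSystem × HSystem) × (ℕ × ℕ) => cert1 q.1.1 q.1.2 q.2.1 q.2.2

/-- **CM2.** -/
def Stmt_CM2 : Prop :=
  PrimrecPred fun q : (HSystem × HSystem) × (ℕ × ℕ) => cert2 q.1.1 q.1.2 q.2.1 q.2.2

/-- **FIN.** The theorem. -/
def Stmt_FIN : Prop :=
  (∃ f : HSystem × HSystem →. Bool, Partrec f ∧ ∀ S S' : HSystem, Covered S S' →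
      ((∃ n, term S n = term S' n) → true ∈ f (S, S')) ∧
      ((¬ ∃ n, term S n = term S' n) → false ∈ f (S, S'))) ∧
  ∀ S S' : HSystem, Covered S S' → ∃ N p, 0 < p ∧ ∀ n ≥ N,
    (term S n = term S' n ↔ term S (n + p) = term S' (n + p))

end Pool.Agent.Work.MP_4cd38d_pr
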